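import Pool.Agent.H36H.Core
import Pool.Agent.ETCO.Defs

/-!
# Width two for quaternionic structures (helper36, note 3136, THEOREM HALF)
-/

set_option autoImplicit false

namespace Pool.Agent.H36H

open QS Pool.Agent.H34B
open Pool.Agent.ETCO (SR ZSet)

/-- the additive form of a quaternionic structure with `-1 = 1` -/
def ldata (S : QStruct) (hneg : S.neg = 1) : LData (Additive S.G) S.Q where
  q := fun a b => S.q a.toMul b.toMul
  z := S.zero
  two := fun x => S.exp_two x.toMul
  slf := fun a => by simpa [hneg] using S.qs1 a.toMul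
  cmm := fun a b => S.qs2 _ _
  add := fun a b c => S.qs3 _ _ _
  link := fun a b c d h => S.qs4 _ _ _ _ h

theorem q_one (S : QStruct) (a : S.G) : S.q 1 a = S.zero := by
  rw [S.qs2]
  have h := (S.qs3 a 1 1).1 rfl
  simpa using h

/-- **THEOREM HALF.** Let `-1 = 1`, let `H` have index two and let `Z` be the set of the `x ∈ H` with
`q (x, y) = 0` for some `y ∉ H`.  Either every element of `H` is a product of two elements of `Z`, or
`Z` does not generate `H`. -/
theorem half (S : QStruct) (hneg : S.neg = 1) (H : Subgroup S.G) (hH : H.index = 2) {h : S.G}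
    (hh : h ∈ H) (hn : ∀ a ∈ insert 1 (ZSet S H), ∀ b ∈ insert 1 (ZSet S H), a * b ≠ h) :
    h ∉ Subgroup.closure (ZSet S H) := by
  have hout : ∃ y, y ∉ H := by
    by_contra hc
    have : H = ⊤ := by
      ext y
      simp only [Subgroup.mem_top, iff_true]
      by_contra hy
      exact hc ⟨y, hy⟩
    rw [this, Subgroup.index_top] at hH
    omega
  have hx : ∀ x : S.G, XX (ldata S hneg) H.toAddSubgroup (Additive.ofMul x) ↔
      x ∈ insert 1 (ZSet S H) := by
    intro x
    constructor
    · rintro ⟨h1, y, h2, h3⟩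
      by_cases hx : x = 1
      · exact Or.inl hx
      · exact Or.inr ⟨h1, hx, y.toMul, h2, h3⟩
    · rintro (rfl | ⟨h1, _, y, h2, h3⟩)
      · obtain ⟨y, hy⟩ := hout
        exact ⟨H.one_mem, Additive.ofMul y, hy, q_one S y⟩
      · exact ⟨h1, Additive.ofMul y, h2, h3⟩
  have hHa : ∀ a b : Additive S.G, a ∉ H.toAddSubgroup → b ∉ H.toAddSubgroup →
      a + b ∈ H.toAddSubgroup := by
    intro a b ha hb
    have := (Subgroup.mul_mem_iff_of_index_two hH (a := a.toMul) (b := b.toMul)).2
      (iff_of_false ha hb)
    exact this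
  have main := halfA (S := ldata S hneg) (H := H.toAddSubgroup) hHa ((hx 1).2 (Or.inl rfl))
    (h := Additive.ofMul h) hh (by
      intro a b ha hb hab
      exact hn a.toMul ((hx _).1 ha) b.toMul ((hx _).1 hb) hab)
  intro hc
  apply main
  have : ∀ y ∈ Subgroup.closure (ZSet S H), Additive.ofMul y ∈
      AddSubgroup.closure {x | XX (ldata S hneg) H.toAddSubgroup x} := by
    intro y hy
    induction hy using Subgroup.closure_induction with
    | mem x hx' => exact AddSubgroup.subset_closure ((hx x).2 (Or.inr hx'))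
    | one => exact AddSubgroup.zero_mem _
    | mul x y _ _ h1 h2 => exact AddSubgroup.add_mem _ h1 h2
    | inv x _ h1 => exact AddSubgroup.neg_mem _ h1
  exact this h hc

/-- `SR` in terms of products of two elements -/
theorem sr_iff (S : QStruct) (hneg : S.neg = 1) : SR S ↔ ∀ H : Subgroup S.G, Sharp S H →
    ∃ h ∈ H, ∀ a ∈ insert 1 (ZSet S H), ∀ b ∈ insert 1 (ZSet S H), a * b ≠ h := by
  constructor
  · intro hS H hs
    by_contra hc
    apply hS H hs
    apply le_antisymm
    · rw [Subgroup.closure_le]
      exact fun x hx => hx.1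
    · intro h hh
      have : ∃ a ∈ insert 1 (ZSet S H), ∃ b ∈ insert 1 (ZSet S H), a * b = h := by
        by_contra hc'
        apply hc
        refine ⟨h, hh, fun a ha b hb hab => hc' ⟨a, ha, b, hb, hab⟩⟩
      obtain ⟨a, ha, b, hb, rfl⟩ := this
      have : ∀ x ∈ insert 1 (ZSet S H), x ∈ Subgroup.closure (ZSet S H) := by
        rintro x (rfl | hx)
        · exact Subgroup.one_mem _
        · exact Subgroup.subset_closure hx
      exact Subgroup.mul_mem _ (this a ha) (this b hb)
  · intro h H hs he
    obtain ⟨g, hg, hn⟩ := h H hs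
    apply half S hneg H hs.1 hg hn
    rw [he]
    exact hg

end Pool.Agent.H36H
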