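import Mathlib

/-!
# Width two (helper36, note 3136, THEOREM HALF)

`S` a quaternionic structure with `-1 = 1`, `H` a subgroup of index two, `Z = ZSet S H ∪ {1}`.
Either every element of `H` is a product of two elements of `Z`, or `Z` does not generate `H`.
Only the linkage axiom is used.
-/

set_option autoImplicit false
set_option linter.unusedSectionVars false
set_option linter.unusedVariables false

namespace Pool.Agent.H36H

section add

variable {V Q : Type} [AddCommGroup V]

/-- quaternionic structures with `-1 = 1`, additively -/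
structure LData (V Q : Type) [AddCommGroup V] where
  q : V → V → Q
  z : Q
  two : ∀ x : V, x + x = 0
  slf : ∀ a, q a a = z
  cmm : ∀ a b, q a b = q b a
  add : ∀ a b c, q a b = q a c ↔ q a (b + c) = z
  link : ∀ a b c d, q a b = q c d → ∃ x, q a b = q a x ∧ q c d = q c x

variable (S : LData V Q) (H : AddSubgroup V) (hH : ∀ a b, a ∉ H → b ∉ H → a + b ∈ H)

/-- elements of `H` whose annihilator is contained in `H` -/
def PP (v : V) : Prop := v ∈ H ∧ ∀ y, S.q v y = S.z → y ∈ H

/-- elements of `H` whose annihilator is not contained in `H` -/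
def XX (v : V) : Prop := v ∈ H ∧ ∃ y, y ∉ H ∧ S.q v y = S.z

variable {S H}

theorem PP.not {v : V} (h : PP S H v) (h' : XX S H v) : False := by
  obtain ⟨y, hy, hq⟩ := h'.2
  exact hy (h.2 y hq)

theorem pp_or {v : V} (hv : v ∈ H) : PP S H v ∨ XX S H v := by
  by_cases h : ∃ y, y ∉ H ∧ S.q v y = S.z
  · exact Or.inr ⟨hv, h⟩
  · exact Or.inl ⟨hv, fun y hy => by
      by_contra hc
      exact h ⟨y, hc, hy⟩⟩

theorem LData.zr (S : LData V Q) (a : V) : S.q a 0 = S.z := by
  have h := (S.add a a a).1 rfl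
  rwa [S.two] at h

theorem LData.zl (S : LData V Q) (a : V) : S.q 0 a = S.z := by
  rw [S.cmm, S.zr]

/-- additivity in the second slot at zero -/
theorem LData.addz (S : LData V Q) {a b c : V} (h1 : S.q a b = S.z) (h2 : S.q a c = S.z) :
    S.q a (b + c) = S.z := (S.add a b c).1 (h1.trans h2.symm)

theorem LData.addz' (S : LData V Q) {a b c : V} (h1 : S.q a c = S.z) (h2 : S.q b c = S.z) :
    S.q (a + b) c = S.z := by
  rw [S.cmm]
  exact S.addz (by rw [S.cmm, h1]) (by rw [S.cmm, h2])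

/-- changing the second slot by an element killed by the first -/
theorem LData.chr (S : LData V Q) {a b c : V} (h : S.q a (b + c) = S.z) : S.q a b = S.q a c :=
  (S.add a b c).2 h

/-- changing the first slot -/
theorem LData.chl (S : LData V Q) {a b c : V} (h : S.q (a + b) c = S.z) : S.q a c = S.q b c := by
  rw [S.cmm a c, S.cmm b c]
  exact S.chr (by rw [S.cmm, h])

theorem LData.chl' (S : LData V Q) {a b c : V} (h : S.q a c = S.q b c) : S.q (a + b) c = S.z := by
  rw [S.cmm]
  exact (S.add c a b).1 (by rw [S.cmm c a, S.cmm c b, h])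

theorem mem_of_add {a b : V} (hb : b ∈ H) (h : a + b ∈ H) : a ∈ H := by
  have := H.sub_mem h hb
  simpa using this

include hH in
theorem bl {v w r s : V} (hv : PP S H v) (hw : w ∈ H) (h : S.q v r = S.q w s) (hrs : r + s ∉ H) :
    XX S H w := by
  obtain ⟨t, h1, h2⟩ := S.link v r w s h
  have h3 : r + t ∈ H := hv.2 _ ((S.add v r t).1 h1)
  refine ⟨hw, s + t, ?_, (S.add w s t).1 h2⟩
  intro h4
  apply hrs
  have h5 := H.add_mem h3 h4
  have h6 : r + t + (s + t) = r + s + (t + t) := by abel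
  rwa [h6, S.two, add_zero] at h5

theorem add2 (S : LData V Q) (x y : V) : x + (x + y) = y := by
  rw [← add_assoc, S.two, zero_add]

include hH in
theorem t3 {p x1 x2 x3 : V} (hp : ∀ x, XX S H x → PP S H (p + x)) (h1 : XX S H x1)
    (h2 : XX S H x2) (h3 : XX S H x3) (he : p = x1 + x2 + x3) (hz : XX S H 0) : False := by
  have T := S.two
  have T' := add2 S
  obtain ⟨m1, u1, n1, k1⟩ := h1
  obtain ⟨m2, u2, n2, k2⟩ := h2
  obtain ⟨m3, u3, n3, k3⟩ := h3
  have hpp : PP S H p := by simpa using hp 0 hz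
  have p12 : PP S H (x1 + x2) := by
    have := hp x3 ⟨m3, u3, n3, k3⟩
    rw [he] at this
    rwa [add_assoc, T, add_zero] at this
  have p23 : PP S H (x2 + x3) := by
    have := hp x1 ⟨m1, u1, n1, k1⟩
    rw [he] at this
    have e : x1 + x2 + x3 + x1 = x2 + x3 + (x1 + x1) := by abel
    rwa [e, T, add_zero] at this
  have nn : ∀ {a b : V}, a ∉ H → b ∈ H → a + b ∉ H := fun {a b} ha hb h => ha (mem_of_add hb h)
  have X1 : XX S H (u2 + x2 + u3) := by
    refine bl hH p23 (hH _ _ (nn n2 m2) n3) (r := u2 + x2) (s := x3) ?_ (nn (nn n2 m2) m3)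
    have e1 : S.q x2 (u2 + x2) = S.z := S.addz k2 (S.slf x2)
    have e2 : S.q (x2 + x3) (u2 + x2) = S.q x3 (u2 + x2) := by
      apply S.chl
      have e : x2 + x3 + x3 = x2 := by rw [add_assoc, T, add_zero]
      rwa [e]
    rw [e2]
    have e3 : S.q x3 (u2 + x2) = S.q x3 (u2 + x2 + u3) := by
      apply S.chr
      rwa [← add_assoc, T, zero_add]
    rw [e3, S.cmm]
  have X2 : XX S H (u2 + (u3 + x3)) := by
    refine bl hH p23 (hH _ _ n2 (nn n3 m3)) (r := u2) (s := x3) ?_ (nn n2 m3)
    have e2 : S.q (x2 + x3) u2 = S.q x3 u2 := by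
      apply S.chl
      have e : x2 + x3 + x3 = x2 := by rw [add_assoc, T, add_zero]
      rwa [e]
    rw [e2]
    have e3 : S.q x3 u2 = S.q x3 (u2 + (u3 + x3)) := by
      apply S.chr
      rw [T']
      exact S.addz k3 (S.slf x3)
    rw [e3, S.cmm]
  have P1 : PP S H (x1 + x3 + u2 + u3) := by
    have := hp _ X1
    have e : p + (u2 + x2 + u3) = x1 + x3 + u2 + u3 + (x2 + x2) := by rw [he]; abel
    rwa [e, T, add_zero] at this
  have P2 : PP S H (x1 + x2 + u2 + u3) := by
    have := hp _ X2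
    have e : p + (u2 + (u3 + x3)) = x1 + x2 + u2 + u3 + (x3 + x3) := by rw [he]; abel
    rwa [e, T, add_zero] at this
  -- (2)
  have L2 : S.q (x1 + x2) (x2 + u2) = S.q (x2 + u1 + u2) x1 := by
    have e1 : S.q x2 (x2 + u2) = S.z := S.addz (S.slf x2) k2
    have e2 : S.q (x1 + x2) (x2 + u2) = S.q x1 (x2 + u2) := by
      apply S.chl
      have e : x1 + x2 + x1 = x2 + (x1 + x1) := by abel
      rwa [e, T, add_zero]
    rw [e2]
    have e3 : S.q x1 (x2 + u2) = S.q x1 (x2 + u1 + u2) := by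
      apply S.chr
      have e : x2 + u2 + (x2 + u1 + u2) = u1 + (x2 + x2) + (u2 + u2) := by abel
      rwa [e, T, T, add_zero, add_zero]
    rw [e3, S.cmm]
  obtain ⟨t, t1, t2⟩ := S.link _ _ _ _ L2
  have t3 : S.q (x1 + x2) (x2 + u2 + t) = S.z := (S.add _ _ _).1 t1
  have t4 : x2 + u2 + t ∈ H := p12.2 _ t3
  have t5 : t ∉ H := by
    intro ht
    have a : x2 + u2 ∈ H := mem_of_add ht t4
    have b : u2 + x2 ∈ H := by rwa [add_comm]
    exact n2 (mem_of_add m2 b)
  have t6 : S.q (x2 + u1 + u2) (x1 + t) = S.z := (S.add _ _ _).1 t2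
  have t7 : S.q (x1 + u1 + u2) t = S.z := by
    have a : S.q (x1 + x2) t = S.q (x2 + u1 + u2) t := by rw [← t1, ← t2, L2]
    have b := S.chl' a
    have e : x1 + x2 + (x2 + u1 + u2) = x1 + u1 + u2 + (x2 + x2) := by abel
    rwa [e, T, add_zero] at b
  -- (3)
  have L3 : S.q p (x2 + u2 + t) = S.q (x2 + u2 + u3 + t) x3 := by
    have e1 : S.q p (x2 + u2 + t) = S.q x3 (x2 + u2 + t) := by
      apply S.chl
      have e : p + x3 = x1 + x2 + (x3 + x3) := by rw [he]; abel
      rwa [e, T, add_zero]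
    rw [e1]
    have e3 : S.q x3 (x2 + u2 + t) = S.q x3 (x2 + u2 + u3 + t) := by
      apply S.chr
      have e : x2 + u2 + t + (x2 + u2 + u3 + t) = u3 + (x2 + x2) + (u2 + u2) + (t + t) := by abel
      rwa [e, T, T, T, add_zero, add_zero, add_zero]
    rw [e3, S.cmm]
  obtain ⟨s, s1, s2⟩ := S.link _ _ _ _ L3
  have s3 : x2 + u2 + t + s ∈ H := hpp.2 _ ((S.add _ _ _).1 s1)
  have s4 : s ∈ H := by
    have : s + (x2 + u2 + t) ∈ H := by rwa [add_comm]
    exact mem_of_add t4 this
  have s5 : S.q (x1 + x3 + u2 + u3 + t) s = S.z := by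
    have a : S.q p s = S.q (x2 + u2 + u3 + t) s := by rw [← s1, ← s2, L3]
    have b := S.chl' a
    have e : p + (x2 + u2 + u3 + t) = x1 + x3 + u2 + u3 + t + (x2 + x2) := by rw [he]; abel
    rwa [e, T, add_zero] at b
  have s6 : S.q (x2 + u2 + u3 + t) (x3 + s) = S.z := (S.add _ _ _).1 s2
  -- (4)
  have W : s + x1 + (u1 + u2) ∈ H := H.add_mem (H.add_mem s4 m1) (hH _ _ n1 n2)
  have X3 : XX S H (s + x1 + (u1 + u2)) := by
    refine bl hH P1 W (r := s) (s := t) ?_ ?_
    · have e1 : S.q (x1 + x3 + u2 + u3) s = S.q t s := S.chl s5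
      rw [e1, S.cmm]
      have e2 : S.q s t = S.q (s + x1 + (u1 + u2)) t := by
        apply S.chl
        have e : s + (s + x1 + (u1 + u2)) = x1 + u1 + u2 + (s + s) := by abel
        rwa [e, T, add_zero]
      exact e2
    · intro h
      rw [add_comm] at h
      exact t5 (mem_of_add s4 h)
  have P3 := hp _ X3
  -- (5)
  refine P3.not ?_
  refine bl hH P2 P3.1 (r := s + x3) (s := t + x1) ?_ ?_
  · have e1 : S.q (x1 + x2 + u2 + u3) (s + x3) = S.q (t + x1) (s + x3) := by
      apply S.chl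
      have e : x1 + x2 + u2 + u3 + (t + x1) = x2 + u2 + u3 + t + (x1 + x1) := by abel
      rw [e, T, add_zero, add_comm s x3]
      exact s6
    rw [e1, S.cmm]
    apply S.chl
    have e : s + x3 + (p + (s + x1 + (u1 + u2))) = x2 + u1 + u2 + (s + s) + (x3 + x3) + (x1 + x1) := by
      rw [he]; abel
    rw [e, T, T, T, add_zero, add_zero, add_zero, add_comm t x1]
    exact t6
  · intro h
    have e : s + x3 + (t + x1) = t + (s + x3 + x1) := by abel
    rw [e] at h
    exact t5 (mem_of_add (H.add_mem (H.add_mem s4 m3) m1) h)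

include hH in
/-- **HALF**, additively -/
theorem halfA (hz : XX S H 0) {h : V} (hh : h ∈ H)
    (hn : ∀ a b, XX S H a → XX S H b → a + b ≠ h) : h ∉ AddSubgroup.closure {x | XX S H x} := by
  have key : ∀ p, p ∈ H → (∀ a b, XX S H a → XX S H b → a + b ≠ p) → ∀ x, XX S H x →
      ∀ a b, XX S H a → XX S H b → a + b ≠ p + x := by
    intro p hp hn x hx a b ha hb hab
    refine t3 hH (p := p) (x1 := a) (x2 := b) (x3 := x) ?_ ha hb hx ?_ hz
    · intro y hy
      rcases pp_or (S := S) (H.add_mem hp hy.1) with h | h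
      · exact h
      · exfalso
        apply hn _ _ h hy
        rw [add_assoc, S.two, add_zero]
    · rw [hab, add_assoc, S.two, add_zero]
  have key2 : ∀ y ∈ AddSubgroup.closure {x | XX S H x}, y ∈ H ∧
      ∀ a b, XX S H a → XX S H b → a + b ≠ h + y := by
    intro y hy
    refine AddSubgroup.closure_induction (p := fun y _ => ∀ g, g ∈ H →
      (∀ a b, XX S H a → XX S H b → a + b ≠ g) → g + y ∈ H ∧
      ∀ a b, XX S H a → XX S H b → a + b ≠ g + y) ?_ ?_ ?_ ?_ hy h hh hn |> fun r => ⟨?_, r.2⟩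
    · intro x hx g hg hgn
      exact ⟨H.add_mem hg hx.1, key g hg hgn x hx⟩
    · intro g hg hgn
      simpa using ⟨hg, hgn⟩
    · intro x y _ _ h1 h2 g hg hgn
      have a := h1 g hg hgn
      have b := h2 (g + x) a.1 a.2
      rwa [add_assoc] at b
    · intro x _ h1 g hg hgn
      have e : -x = x := neg_eq_of_add_eq_zero_left (S.two x)
      rw [e]
      exact h1 g hg hgn
    · have := H.sub_mem r.1 hh
      simpa using this
  intro hc
  have h1 : (0 : V) + 0 ≠ h + h := (key2 h hc).2 0 0 hz hz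
  exact h1 (by rw [S.two, S.two])

end add

end Pool.Agent.H36H
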